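import Pool.Agent.H32.SY.Star
import Pool.Agent.H32.SY.EqualS
import Pool.Agent.H32.SV.Iso
import Pool.Agent.H62.SS.CaseB

set_option autoImplicit false

/-!
# [H32 SY CASES] The Weinstock bound for domains in the hemisphere about their centre
-/

namespace Pool.Agent.H32.SY

open scoped RealInnerProductSpace MeasureTheory ENNReal NNReal
open MeasureTheory Set Metric
open Pool.Agent.H62.WS (E sg cst)
open Pool.Agent.H62.SS
open Pool.Agent.H32.SV

variable {n : ℕ}

theorem integral_Fp_pos (hn : 2 ≤ n) {Ω : Set (Sp n)} (h : Ds Ω) (ho : nor n ∈ Ω) {H : ℝ → ℝ}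
    (hH : ContDiff ℝ 1 H) (hp : ∀ c ∈ Icc (-1 : ℝ) 1, 0 < H c) :
    0 < ∫ p in frontier Ω, Fp H (rad p) ^ 2 ∂bs n := by
  have hpi := Real.pi_pos
  have hc : Continuous (fun p : Sp n => Fp H (rad p) ^ 2) :=
    (((hH.continuous.comp Real.continuous_cos).mul Real.continuous_sin).comp continuous_rad).pow 2
  have hfm : IsFiniteMeasure ((bs n).restrict (frontier Ω)) :=
    ⟨by rw [Measure.restrict_apply_univ]; exact bs_frontier_lt_top hn h⟩
  have hi : IntegrableOn (fun p : Sp n => Fp H (rad p) ^ 2) (frontier Ω) (bs n) :=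
    hc.integrable_of_hasCompactSupport (HasCompactSupport.of_compactSpace _)
  rw [setIntegral_pos_iff_support_of_nonneg_ae
    (Filter.Eventually.of_forall fun p => sq_nonneg _) hi]
  refine (bs_frontier_pos hn h).trans_le (measure_mono fun p hp' => ⟨?_, hp'⟩)
  have h1 : rad p < Real.pi / 2 := by
    have h2 := h.inner_pos ho (frontier_subset_closure hp')
    rw [inner_nor, ← cos_rad] at h2
    by_contra h3
    push Not at h3
    have h4 := Real.cos_nonpos_of_pi_div_two_le_of_le h3 (by linarith [rad_le_pi p])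
    linarith
  have h2 : 0 < rad p := by
    rcases (rad_nonneg p).lt_or_eq with h3 | h3
    · exact h3
    · exfalso
      obtain ⟨θ, hθ⟩ := exists_pol (by omega : 1 ≤ n) p
      rw [← h3, pol_zero] at hθ
      rw [hθ, h.isOpen.frontier_eq] at hp'
      exact hp'.2 ho
  have h3 : 0 < Fp H (rad p) := by
    unfold Fp
    exact mul_pos (hp _ ⟨Real.neg_one_le_cos _, Real.cos_le_one _⟩)
      (Real.sin_pos_of_pos_of_lt_pi h2 (by linarith))
  rw [Function.mem_support]
  positivity

theorem case_smallS (hn : 3 ≤ n) {W : Set (Sp n)} (hd : Ds W) (hoΦ : nor n ∈ W)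
    (hmean : ∀ H : ℝ → ℝ, ContDiff ℝ 1 H →
      ∀ i : Fin n, ∫ p in frontier W, uH H i (p : E (n + 1)) ∂bs n = 0) {R : ℝ} (h0 : 0 < R)
    (h1 : R ≤ Real.pi / 4) (hbs : bs n (frontier W) = bs n (gsph (nor n) R)) :
    sigma1 W ≤ gS (n - 1) R / (cst n).toReal ∧
      (gS (n - 1) R / (cst n).toReal ≤ sigma1 W → W = gball (nor n) R) := by
  have hn2 : 2 ≤ n := by omega
  have hN : 2 ≤ n - 1 := by omega
  have hpi := Real.pi_pos
  obtain ⟨m, κ, r₀, H, P⟩ := exists_prof hN h0 h1
  have hint := hmean H P.contDiff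
  have hc := cst_toReal_pos hn2
  have hA := bs_toReal_of_eq hn2 h0 (by linarith) hbs
  have hvol : (sg (n + 1) W).toReal ≤ VS (n - 1) R * (sg n univ).toReal := by
    rw [← sg_gball_toReal hn2 (nor n) h0.le (by linarith)]
    exact ENNReal.toReal_mono (measure_ne_top _ _)
      (iso_hd hn2 hd.toHd h0 (by linarith) hbs)
  have hfin : bs n (frontier W) < ∞ := bs_frontier_lt_top hn2 hd
  have hup := sigma1_mul_le hn2 hfin P.contDiff hint
  have hst := star hn2 hd hoΦ P
  have hI := integral_Fp_pos hn2 hd hoΦ P.contDiff P.pos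
  have hAz : (bs n (frontier W)).toReal / (cst n).toReal -
      Real.sin R ^ (n - 1) * (sg n univ).toReal = 0 := by
    rw [hA]
    field_simp
    ring
  have hκ : 0 ≤ κ * (VS (n - 1) R * (sg n univ).toReal - (sg (n + 1) W).toReal) :=
    mul_nonneg P.kap_nonneg (by linarith)
  rw [hAz, mul_zero, zero_add] at hst
  set I := ∫ p in frontier W, Fp H (rad p) ^ 2 ∂bs n with hIdef
  have e1 : gS (n - 1) R * I / (cst n).toReal = gS (n - 1) R / (cst n).toReal * I := by ring
  constructor
  · have h2 : sigma1 W * I ≤ gS (n - 1) R / (cst n).toReal * I := by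
      rw [← e1]
      linarith
    exact le_of_mul_le_mul_right h2 hI
  · intro hge
    have h2 : gS (n - 1) R / (cst n).toReal * I ≤ sigma1 W * I :=
      mul_le_mul_of_nonneg_right hge hI.le
    have h3 := star_eq hn2 hd hoΦ P (by rw [hAz, mul_zero, zero_add, ← hIdef]; linarith)
    exact eq_ball_of_rho hn2 hd hoΦ h0 (by linarith) h3

theorem case_largeS (hn : 3 ≤ n) {W : Set (Sp n)} (hd : Ds W) (hoΦ : nor n ∈ W)
    (hmean : ∀ H : ℝ → ℝ, ContDiff ℝ 1 H →
      ∀ i : Fin n, ∫ p in frontier W, uH H i (p : E (n + 1)) ∂bs n = 0) {R : ℝ}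
    (h0 : Real.pi / 4 < R) (h1 : R < Real.pi / 2)
    (hbs : bs n (frontier W) = bs n (gsph (nor n) R))
    (hV : sg (n + 1) W ≤ sg (n + 1) (gball (nor n) (Real.pi / 4))) :
    sigma1 W < gS (n - 1) R / (cst n).toReal := by
  have hn2 : 2 ≤ n := by omega
  have hN : 2 ≤ n - 1 := by omega
  have hpi := Real.pi_pos
  have hR0 : 0 < R := by linarith
  obtain ⟨m, κ, r₀, H, X, P, hX, hFX, hR2⟩ := exists_prof_quarter hN
  have hgR := hR2 R ⟨h0, h1⟩
  have hint := hmean H P.contDiff
  have hc := cst_toReal_pos hn2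
  have hA := bs_toReal_of_eq hn2 hR0 (by linarith) hbs
  have hvol : (sg (n + 1) W).toReal ≤ VS (n - 1) (Real.pi / 4) * (sg n univ).toReal := by
    rw [← sg_gball_toReal hn2 (nor n) (by linarith) (by linarith)]
    exact ENNReal.toReal_mono (measure_ne_top _ _) hV
  have hfin : bs n (frontier W) < ∞ := bs_frontier_lt_top hn2 hd
  have hup := sigma1_mul_le hn2 hfin P.contDiff hint
  have hst := star hn2 hd hoΦ P
  have hI := integral_Fp_pos hn2 hd hoΦ P.contDiff P.pos
  have hκ : 0 ≤ κ * (VS (n - 1) (Real.pi / 4) * (sg n univ).toReal - (sg (n + 1) W).toReal) :=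
    mul_nonneg P.kap_nonneg (by linarith)
  set I := ∫ p in frontier W, Fp H (rad p) ^ 2 ∂bs n with hIdef
  set c := (cst n).toReal with hcdef
  set ω := (sg n univ).toReal with hωdef
  set A := (bs n (frontier W)).toReal with hAdef
  have hsR : 0 < Real.sin R := Real.sin_pos_of_pos_of_lt_pi hR0 (by linarith)
  have hIX : I ≤ X * A := by
    have hfin' : IsFiniteMeasure ((bs n).restrict (frontier W)) := ⟨by simpa using hfin⟩
    have h2 : I ≤ ∫ _p in frontier W, X ∂bs n := by
      refine setIntegral_mono_on ?_ ?_ isClosed_frontier.measurableSet ?_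
      · refine Integrable.of_bound (C := X)
          (((continuous_Fp P.contDiff).comp continuous_rad).pow 2).aestronglyMeasurable ?_
        rw [ae_restrict_iff' isClosed_frontier.measurableSet]
        refine Filter.Eventually.of_forall fun p hp => ?_
        rw [Real.norm_eq_abs, abs_of_nonneg (sq_nonneg _)]
        exact hFX _ ⟨rad_nonneg p,
          (rad_lt_of_mem_closure hd hoΦ (frontier_subset_closure hp)).le⟩
      · exact integrable_const _
      · intro p hp
        exact hFX _ ⟨rad_nonneg p,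
          (rad_lt_of_mem_closure hd hoΦ (frontier_subset_closure hp)).le⟩
    rw [setIntegral_const, smul_eq_mul] at h2
    have h3 : (bs n).real (frontier W) = A := rfl
    rw [h3] at h2
    linarith
  -- the quantity `δ = 1 - (s₁/s_R)^N`
  set δ := 1 - (Real.sin (Real.pi / 4) / Real.sin R) ^ (n - 1) with hδ
  have hs1 : 0 < Real.sin (Real.pi / 4) := Real.sin_pos_of_pos_of_lt_pi (by linarith) (by linarith)
  have hs1R : Real.sin (Real.pi / 4) < Real.sin R :=
    Real.sin_lt_sin_of_lt_of_le_pi_div_two (by linarith) h1.le h0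
  have hδ0 : 0 ≤ δ := by
    have : (Real.sin (Real.pi / 4) / Real.sin R) ^ (n - 1) ≤ 1 :=
      pow_le_one₀ (by positivity) (by rw [div_le_one hsR]; exact hs1R.le)
    linarith
  have e1 : A / c - Real.sin (Real.pi / 4) ^ (n - 1) * ω = A / c * δ := by
    rw [hδ, hA, div_pow]
    field_simp
  rw [e1] at hst
  have hAI : I / X ≤ A := by
    rw [div_le_iff₀ hX]
    linarith
  have h2 : m * (I / X / c * δ) ≤ m * (A / c * δ) := by
    have := P.m_pos
    gcongr
  have h3 : sigma1 W * I ≤ (gS (n - 1) (Real.pi / 4) - m * δ / X) / c * I := by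
    have e2 : (gS (n - 1) (Real.pi / 4) - m * δ / X) / c * I =
        gS (n - 1) (Real.pi / 4) * I / c - m * (I / X / c * δ) := by
      field_simp
    rw [e2]
    linarith
  have h4 : sigma1 W ≤ (gS (n - 1) (Real.pi / 4) - m * δ / X) / c :=
    le_of_mul_le_mul_right h3 hI
  refine h4.trans_lt ?_
  have h5 : gS (n - 1) (Real.pi / 4) - m * δ / X < gS (n - 1) R := by
    have h6 : gS (n - 1) (Real.pi / 4) - gS (n - 1) R < m * δ / X := by
      rw [lt_div_iff₀ hX]
      exact hgR
    linarith
  gcongr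

end Pool.Agent.H32.SY
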