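import Pool.Agent.H32.SV.Hemi
import Pool.Agent.H62.SS.ActC

set_option autoImplicit false

/-!
# [H32 SY DEF] Vectors fixed by the symmetries of a domain
-/

namespace Pool.Agent.H32.SY

open scoped RealInnerProductSpace MeasureTheory ENNReal NNReal
open MeasureTheory Set Metric
open Pool.Agent.H62.WS (E sg cst)
open Pool.Agent.H62.SS
open Pool.Agent.H32.SV

variable {n : ℕ}

/-- `v` is fixed by all isometries that preserve `Ω` -/
def Fix (Ω : Set (Sp n)) (v : E (n + 1)) : Prop :=
  ∀ Φ : E (n + 1) ≃ₗᵢ[ℝ] E (n + 1), act Φ '' Ω = Ω → Φ v = v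

end Pool.Agent.H32.SY
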