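import Pool.Agent.H32.SY.Def

set_option autoImplicit false

/-!
# [H32 SY SYMA] The centre of a symmetric convex domain

The symmetries of `Ω` (isometries `Φ` with `act Φ '' Ω = Ω`) form a group (`Φ.symm` too) and preserve `closure Ω` and `cn Ω` (`cn_act`).

* `exists_fix`: a nonempty closed convex set `K` of `E (n+1)` that is mapped to itself by all symmetries contains a fixed vector: the vector `v` of least norm
  (`exists_norm_eq_iInf_of_complete_convex` with `u = 0`). `Φ v ∈ K` has the same norm, the midpoint `(1/2)(v + Φ v) ∈ K` has norm `≥ ‖v‖`, so by the parallelogram law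
  `‖v - Φ v‖² = 2‖v‖² + 2‖Φ v‖² - ‖v + Φ v‖² ≤ 0`.
* the pole: `K₁ = {w | ∀ x ∈ closure Ω, 1 ≤ ⟪x,w⟫}` is closed, convex, mapped to itself and nonempty (`h.pole` and compactness of `closure Ω`: the minimum of `⟪·,w⟫` is
  positive, scale). So `w₁ ∈ K₁` fixed, `w₁ = t₁ c`.
* the centre: `K₂ = {x | ball x ε ⊆ cn Ω}` (closed, convex as `cn Ω` is convex, mapped to itself, nonempty for small `ε > 0` as `cn Ω` is open and nonempty). So `v₂ ∈ K₂` fixed,
  `v₂ ∈ cn Ω`, `v₂ = t₂ c`.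
* `o = nrm v₂ ∈ Ω` (`mem_cn_iff`) and `⟪v₂,w₁⟫ > 0`, so `w₁ = s v₂` with `s > 0` (both are multiples of `c`), so `⟪o,x⟫ > 0` on `closure Ω`; `c ≠ 0` and every fixed vector is a
  multiple of `o`.
-/

namespace Pool.Agent.H32.SY

open scoped RealInnerProductSpace MeasureTheory ENNReal NNReal
open MeasureTheory Set Metric
open Pool.Agent.H62.WS (E sg cst)
open Pool.Agent.H62.SS
open Pool.Agent.H32.SV

variable {n : ℕ}

theorem exists_fix {Ω : Set (Sp n)} {K : Set (E (n + 1))} (h1 : K.Nonempty) (h2 : IsClosed K)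
    (h3 : Convex ℝ K)
    (h4 : ∀ Φ : E (n + 1) ≃ₗᵢ[ℝ] E (n + 1), act Φ '' Ω = Ω → ∀ x ∈ K, Φ x ∈ K) :
    ∃ v ∈ K, Fix Ω v := by
  obtain ⟨v, hv, hm⟩ := exists_norm_eq_iInf_of_complete_convex h1 h2.isComplete h3 0
  refine ⟨v, hv, fun Φ hΦ => ?_⟩
  have hmin : ∀ w ∈ K, ‖v‖ ≤ ‖w‖ := by
    intro w hw
    have h5 : ‖(0 : E (n + 1)) - v‖ ≤ ‖(0 : E (n + 1)) - w‖ := by
      rw [hm]
      exact ciInf_le (f := fun y : K => ‖(0 : E (n + 1)) - y‖)
        ⟨0, by rintro _ ⟨y, rfl⟩; exact norm_nonneg _⟩ (⟨w, hw⟩ : K)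
    rwa [zero_sub, zero_sub, norm_neg, norm_neg] at h5
  have hΦv := h4 Φ hΦ v hv
  have hmid : (1 / 2 : ℝ) • v + (1 / 2 : ℝ) • Φ v ∈ K :=
    h3 hv hΦv (by norm_num) (by norm_num) (by norm_num)
  have h5 := hmin _ hmid
  rw [← smul_add, norm_smul, Real.norm_of_nonneg (by norm_num : (0 : ℝ) ≤ 1 / 2)] at h5
  have h6 := parallelogram_law_with_norm ℝ v (Φ v)
  have h7 : ‖Φ v‖ = ‖v‖ := Φ.norm_map v
  rw [h7] at h6
  have h8 : ‖v - Φ v‖ * ‖v - Φ v‖ ≤ 0 := by nlinarith [norm_nonneg v, norm_nonneg (v + Φ v)]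
  have h9 : ‖v - Φ v‖ = 0 := by nlinarith [norm_nonneg (v - Φ v)]
  rw [norm_eq_zero, sub_eq_zero] at h9
  exact h9.symm

theorem act_closure_eq {Ω : Set (Sp n)} {Φ : E (n + 1) ≃ₗᵢ[ℝ] E (n + 1)} (hΦ : act Φ '' Ω = Ω) :
    act Φ '' closure Ω = closure Ω := by
  have h := (act Φ).toHomeomorph.image_closure Ω
  have h2 : (act Φ).toHomeomorph '' Ω = Ω := hΦ
  rw [h2] at h
  exact h

theorem exists_pole {Ω : Set (Sp n)} (h : Hd Ω) :
    ∃ w : E (n + 1), Fix Ω w ∧ ∀ x ∈ closure Ω, 1 ≤ ⟪(x : E (n + 1)), w⟫ := by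
  obtain ⟨w, hw⟩ := h.pole
  have hcomp : IsCompact (closure Ω) := isClosed_closure.isCompact
  have hcont : ContinuousOn (fun x : Sp n => ⟪(x : E (n + 1)), w⟫) (closure Ω) := by fun_prop
  obtain ⟨y, hy, hmin⟩ := hcomp.exists_isMinOn h.nonempty.closure hcont
  have hy0 := hw y hy
  have key : ∃ v ∈ {v : E (n + 1) | ∀ x ∈ closure Ω, 1 ≤ ⟪(x : E (n + 1)), v⟫}, Fix Ω v := by
    refine exists_fix ?_ ?_ ?_ ?_
    · refine ⟨(⟪(y : E (n + 1)), w⟫)⁻¹ • w, fun x hx => ?_⟩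
      rw [real_inner_smul_right, inv_mul_eq_div, le_div_iff₀ hy0, one_mul]
      exact hmin hx
    · have he : {v : E (n + 1) | ∀ x ∈ closure Ω, 1 ≤ ⟪(x : E (n + 1)), v⟫} =
          ⋂ x ∈ closure Ω, {v : E (n + 1) | 1 ≤ ⟪(x : E (n + 1)), v⟫} := by
        ext v
        simp
      rw [he]
      exact isClosed_biInter fun x _ => isClosed_le continuous_const (by fun_prop)
    · intro u hu v hv a b ha hb hab x hx
      have h1 := hu x hx
      have h2 := hv x hx
      rw [inner_add_right, real_inner_smul_right, real_inner_smul_right]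
      nlinarith
    · intro Φ hΦ v hv x hx
      rw [← act_closure_eq hΦ] at hx
      obtain ⟨z, hz, rfl⟩ := hx
      rw [act_coe, Φ.inner_map_map]
      exact hv z hz
  obtain ⟨v, hv, hfix⟩ := key
  exact ⟨v, hfix, hv⟩

theorem exists_mid {Ω : Set (Sp n)} (h : Hd Ω) : ∃ v : E (n + 1), Fix Ω v ∧ v ∈ cn Ω := by
  have ho := isOpen_cn h.isOpen
  obtain ⟨p, hp⟩ := h.nonempty
  obtain ⟨ε, hε, hb⟩ := Metric.isOpen_iff.1 ho (p : E (n + 1)) (coe_mem_cn.2 hp)
  have key : ∃ v ∈ {x : E (n + 1) | ball x ε ⊆ cn Ω}, Fix Ω v := by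
    refine exists_fix ?_ ?_ ?_ ?_
    · exact ⟨(p : E (n + 1)), hb⟩
    · have he : {x : E (n + 1) | ball x ε ⊆ cn Ω} =
          ⋂ y ∈ (cn Ω)ᶜ, {x : E (n + 1) | ε ≤ dist y x} := by
        ext x
        simp only [mem_setOf_eq, mem_iInter, mem_compl_iff]
        constructor
        · intro hx y hy
          by_contra hc
          exact hy (hx (mem_ball.2 (not_le.1 hc)))
        · intro hx y hy
          by_contra hc
          exact absurd (hx y hc) (not_le.2 (mem_ball.1 hy))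
      rw [he]
      exact isClosed_biInter fun y _ => isClosed_le continuous_const (by fun_prop)
    · intro x hx y hy a b ha hb hab z hz
      have hd : ‖z - (a • x + b • y)‖ < ε := by
        rw [← dist_eq_norm]
        exact hz
      have h1 : x + (z - (a • x + b • y)) ∈ cn Ω := hx (by
        rw [mem_ball, dist_eq_norm, add_sub_cancel_left]
        exact hd)
      have h2 : y + (z - (a • x + b • y)) ∈ cn Ω := hy (by
        rw [mem_ball, dist_eq_norm, add_sub_cancel_left]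
        exact hd)
      have h3 := h.conv h1 h2 ha hb hab
      have h4 : a • (x + (z - (a • x + b • y))) + b • (y + (z - (a • x + b • y))) = z := by
        have hb' : b = 1 - a := by linarith
        subst hb'
        module
      rwa [h4] at h3
    · intro Φ hΦ x hx y hy
      have h1 : Φ.symm y ∈ cn Ω := hx (by
        rw [mem_ball] at hy ⊢
        rw [← Φ.dist_map, Φ.apply_symm_apply]
        exact hy)
      have h2 : y ∈ cn (act Φ '' Ω) := by
        rw [cn_act]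
        exact ⟨Φ.symm y, h1, by simp⟩
      rwa [hΦ] at h2
  obtain ⟨v, hv, hfix⟩ := key
  exact ⟨v, hfix, hv (mem_ball_self hε)⟩

theorem sym_center {Ω : Set (Sp n)} (h : Hd Ω)
    (hs : ∃ c : E (n + 1), ∀ v : E (n + 1), Fix Ω v → ∃ t : ℝ, v = t • c) :
    ∃ o : Sp n, o ∈ Ω ∧ (∀ x ∈ closure Ω, 0 < ⟪(o : E (n + 1)), (x : E (n + 1))⟫) ∧
      Fix Ω (o : E (n + 1)) ∧
      ∀ v : E (n + 1), Fix Ω v → ∃ t : ℝ, v = t • (o : E (n + 1)) := by
  obtain ⟨c, hc⟩ := hs
  obtain ⟨w, hw, hw1⟩ := exists_pole h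
  obtain ⟨v, hv, hv1⟩ := exists_mid h
  obtain ⟨h0, h1⟩ := mem_cn_iff.1 hv1
  have hn : ‖v‖ • (nrm v : E (n + 1)) = v := norm_smul_nrm v
  have hall : ∀ u : E (n + 1), Fix Ω u → ∃ t : ℝ, u = t • (nrm v : E (n + 1)) := by
    intro u hu
    obtain ⟨t, ht⟩ := hc v hv
    obtain ⟨s, hs⟩ := hc u hu
    have ht0 : t ≠ 0 := by
      rintro rfl
      rw [zero_smul] at ht
      exact h0 ht
    refine ⟨s * t⁻¹ * ‖v‖, ?_⟩
    rw [mul_smul, hn, mul_smul, ht, inv_smul_smul₀ ht0, hs]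
  refine ⟨nrm v, h1, ?_, ?_, hall⟩
  · obtain ⟨s, hs⟩ := hall w hw
    have h2 := hw1 (nrm v) (subset_closure h1)
    rw [hs, real_inner_smul_right, real_inner_self_eq_norm_sq, norm_coe, one_pow, mul_one] at h2
    intro x hx
    have h3 := hw1 x hx
    rw [hs, real_inner_smul_right, real_inner_comm] at h3
    by_contra h4
    nlinarith
  · intro Φ hΦ
    rw [coe_nrm h0, map_smul, hv Φ hΦ]

end Pool.Agent.H32.SY
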