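import Pool.Agent.H32.SY.Def
import Pool.Agent.H62.SS.SigInvS

set_option autoImplicit false

/-!
# [H32 SY SYMB] The means of a symmetric convex domain vanish

`M = ∫_{∂Ω} H(⟪o,x⟫) x` (a vector integral, or the vector with coordinates `∫_{∂Ω} H(⟪o,x⟫) x_i`). For a symmetry `Φ` of `Ω`: `⟪w, Φ M⟫ = ⟪Φ.symm w, M⟫ = ∫ H(⟪o,x⟫) ⟪Φ.symm w, x⟫ =
∫ H(⟪o, Φ x⟫) ⟪w, Φ x⟫` (`Φ o = o`) `= ∫_{act Φ '' ∂Ω} H(⟪o,y⟫) ⟪w,y⟫ = ⟪w, M⟫` (`setIntegral_bs_act`, `act_frontier`). So `M` is fixed, `M = t o`, `⟪v,M⟫ = 0`.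
Integrability: continuous on a compact space, finite measure `hfin`.
-/

namespace Pool.Agent.H32.SY

open scoped RealInnerProductSpace MeasureTheory ENNReal NNReal
open MeasureTheory Set Metric
open Pool.Agent.H62.WS (E sg cst)
open Pool.Agent.H62.SS
open Pool.Agent.H32.SV

variable {n : ℕ}

theorem sym_int {Ω : Set (Sp n)} {o : Sp n} (ho : Fix Ω (o : E (n + 1)))
    (hs : ∀ v : E (n + 1), Fix Ω v → ∃ t : ℝ, v = t • (o : E (n + 1)))
    (hfin : bs n (frontier Ω) < ∞) {H : ℝ → ℝ} (hH : Continuous H) {v : E (n + 1)}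
    (hv : ⟪(o : E (n + 1)), v⟫ = 0) :
    ∫ x in frontier Ω, H ⟪(o : E (n + 1)), (x : E (n + 1))⟫ * ⟪v, (x : E (n + 1))⟫ ∂bs n = 0 := by
  have hfm : IsFiniteMeasure ((bs n).restrict (frontier Ω)) :=
    ⟨by rwa [Measure.restrict_apply_univ]⟩
  have hcf : Continuous (fun x : Sp n => H ⟪(o : E (n + 1)), (x : E (n + 1))⟫ • (x : E (n + 1))) := by
    fun_prop
  have hint : Integrable (fun x : Sp n => H ⟪(o : E (n + 1)), (x : E (n + 1))⟫ • (x : E (n + 1)))
      ((bs n).restrict (frontier Ω)) :=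
    hcf.integrable_of_hasCompactSupport (HasCompactSupport.of_compactSpace _)
  set M : E (n + 1) := ∫ x in frontier Ω,
    H ⟪(o : E (n + 1)), (x : E (n + 1))⟫ • (x : E (n + 1)) ∂bs n with hM
  have hw : ∀ w : E (n + 1), ⟪w, M⟫ = ∫ x in frontier Ω,
      H ⟪(o : E (n + 1)), (x : E (n + 1))⟫ * ⟪w, (x : E (n + 1))⟫ ∂bs n := by
    intro w
    rw [hM, ← integral_inner hint w]
    refine integral_congr_ae (Filter.Eventually.of_forall fun x => ?_)
    simp only [inner_smul_right]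
  have hfix : Fix Ω M := by
    intro Φ hΦ
    refine ext_inner_left ℝ fun w => ?_
    have h1 : ⟪w, Φ M⟫ = ⟪Φ.symm w, M⟫ := by
      have := Φ.inner_map_map (Φ.symm w) M
      rwa [Φ.apply_symm_apply] at this
    have h2 : act Φ '' frontier Ω = frontier Ω := by rw [act_frontier, hΦ]
    have h3 : ⟪w, M⟫ = ∫ x in act Φ '' frontier Ω,
        H ⟪(o : E (n + 1)), (x : E (n + 1))⟫ * ⟪w, (x : E (n + 1))⟫ ∂bs n := by rw [h2]; exact hw w
    rw [h1, hw, h3, setIntegral_bs_act]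
    refine integral_congr_ae (Filter.Eventually.of_forall fun x => ?_)
    have h4 : ⟪(o : E (n + 1)), (act Φ x : E (n + 1))⟫ = ⟪(o : E (n + 1)), (x : E (n + 1))⟫ := by
      have := Φ.inner_map_map (o : E (n + 1)) (x : E (n + 1))
      rw [ho Φ hΦ] at this
      rw [act_coe]
      exact this
    have h5 : ⟪w, (act Φ x : E (n + 1))⟫ = ⟪Φ.symm w, (x : E (n + 1))⟫ := by
      have := Φ.inner_map_map (Φ.symm w) (x : E (n + 1))
      rw [Φ.apply_symm_apply] at this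
      rw [act_coe]
      exact this
    simp only [h4, h5]
  obtain ⟨t, ht⟩ := hs M hfix
  rw [← hw v, ht, inner_smul_right, real_inner_comm, hv, mul_zero]

end Pool.Agent.H32.SY
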