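import Pool.Agent.H32.SY.CaseS
import Pool.Agent.H32.SY.SymA
import Pool.Agent.H32.SY.SymB
import Pool.Agent.H32.SV.MainS

set_option autoImplicit false

/-!
# [H32 SY MAINY] The Weinstock inequality for symmetric convex domains of the sphere
-/

namespace Pool.Agent.H32.SY

open scoped RealInnerProductSpace MeasureTheory ENNReal NNReal
open MeasureTheory Set Metric
open Pool.Agent.H62.WS (E sg cst)
open Pool.Agent.H62.SS
open Pool.Agent.H32.SV

variable {n : ℕ}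

theorem finish' (hn : 3 ≤ n) {Ω : Set (Sp n)} (h : Hd Ω) {w : Sp n}
    (hw : ∀ p ∈ closure Ω, 0 < ⟪(w : E (n + 1)), (p : E (n + 1))⟫) {R : ℝ} (hR0 : 0 < R)
    (hR1 : R < Real.pi / 2) (hR : ∀ p : Sp n, bs n (gsph p R) = bs n (frontier Ω))
    (hle : sigma1 Ω ≤ gS (n - 1) R / (cst n).toReal ∧
      (gS (n - 1) R / (cst n).toReal ≤ sigma1 Ω → ∃ q, Ω = gball q R)) : Weinstock Ω := by
  have hn2 : 2 ≤ n := by omega
  have hn1 : 1 ≤ n := by omega
  have hpi := Real.pi_pos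
  have hpos := h.bs_pos hn2
  have hfin := h.bs_lt_top hn2
  have hcst := cst_toReal_pos hn2
  have hne := h.nonempty
  have hRf : ∀ p : Sp n, bs n (frontier (gball p R)) = bs n (frontier Ω) := fun p => by
    rw [frontier_gball hn1 p hR0 (by linarith), hR p]
  have hball : ∀ p : Sp n, gS (n - 1) R / (cst n).toReal ≤ sigma1 (gball p R) := fun p => by
    rw [sigma1_gball p (nor n) R]
    exact le_sigma1_ball hn2 hR0 hR1
  refine ⟨hpos, hfin, fun p => ?_, rayleigh_nonempty hn2 hpos hfin, R, ⟨hR0, hR1⟩, hRf,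
    fun p S hS hSe => ?_, fun p => ⟨?_, (div_pos (gS_pos (by omega) hR0 hR1) hcst).trans_le
      (hball p)⟩, fun p => hle.1.trans (hball p), fun p => ⟨fun he => ?_, ?_⟩⟩
  · rw [frontier_gball hn1 p (by linarith) (by linarith), ← hR (nor n)]
    exact bs_gsph_strictMono hn2 (nor n) p hR0 hR1 le_rfl
  · refine radius_unique hn2 ⟨hR0, hR1⟩ hS (p := p) (q := p) ?_
    rw [hR p, ← hSe, frontier_gball hn1 p hS.1 (by linarith [hS.2])]
  · rw [rayleigh_gball p (nor n) R]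
    exact rayleigh_ball_nonempty hn2 hR0 hR1
  · obtain ⟨q, hq⟩ := hle.2 (he ▸ hball p)
    exact ⟨q, R, hq⟩
  · rintro ⟨q, S, hS⟩
    rw [gball_arccos] at hS
    obtain ⟨T, hT⟩ : ∃ T : ℝ, T = Real.arccos (Real.cos S) := ⟨_, rfl⟩
    rw [← hT] at hS
    have hT0 : 0 ≤ T := hT ▸ Real.arccos_nonneg _
    have hT1 : T ≤ Real.pi := hT ▸ Real.arccos_le_pi _
    have hTpos : 0 < T := by
      rcases hT0.eq_or_lt with h5 | h5
      · rw [← h5, gball_zero] at hS
        rw [hS] at hne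
        exact absurd hne not_nonempty_empty
      · exact h5
    have hT2 : T < Real.pi / 2 := lt_of_hemi hn1 q w hT1 (by rw [← hS]; exact hw)
    have hTR : T = R := by
      refine radius_unique hn2 ⟨hR0, hR1⟩ ⟨hTpos, hT2⟩ (p := q) (q := q) ?_
      rw [hR q, hS, frontier_gball hn1 q hTpos (by linarith)]
    rw [hS, hTR]
    exact sigma1_gball q p R

theorem act_ds {Ω : Set (Sp n)} (h : Hd Ω) {o : Sp n}
    (ho : ∀ x ∈ closure Ω, 0 < ⟪(o : E (n + 1)), (x : E (n + 1))⟫)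
    {Φ : E (n + 1) ≃ₗᵢ[ℝ] E (n + 1)} (hΦ : act Φ o = nor n) : Ds (act Φ '' Ω) where
  isOpen := (act Φ).toHomeomorph.isOpenMap _ h.isOpen
  nonempty := h.nonempty.image _
  conv := by
    rw [cn_act]
    exact h.conv.linear_image _
  hemi := by
    intro x hx
    have h1 : closure (act Φ '' Ω) = act Φ '' closure Ω :=
      ((act Φ).toHomeomorph.image_closure Ω).symm
    rw [h1] at hx
    obtain ⟨y, hy, rfl⟩ := hx
    rw [← hΦ, inner_act]
    exact ho y hy

/-- the means vanish after the centre has been moved to the pole -/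
theorem move_int {Ω : Set (Sp n)} {o : Sp n} {Φ : E (n + 1) ≃ₗᵢ[ℝ] E (n + 1)}
    (hΦ : act Φ o = nor n) {H : ℝ → ℝ}
    (hint : ∀ v : E (n + 1), ⟪(o : E (n + 1)), v⟫ = 0 →
      ∫ x in frontier Ω, H ⟪(o : E (n + 1)), (x : E (n + 1))⟫ * ⟪v, (x : E (n + 1))⟫ ∂bs n = 0)
    (i : Fin n) : ∫ p in frontier (act Φ '' Ω), uH H i (p : E (n + 1)) ∂bs n = 0 := by
  rw [← act_frontier, setIntegral_bs_act]
  set e : E (n + 1) := EuclideanSpace.single i.succ 1 with he
  have hei : ∀ z : E (n + 1), ⟪e, z⟫ = z i.succ := fun z => by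
    rw [he, EuclideanSpace.inner_single_left]
    simp
  have hΦo : Φ (o : E (n + 1)) = e0 n := by
    have h1 := congrArg (fun q : Sp n => (q : E (n + 1))) hΦ
    exact h1
  have hov : ⟪(o : E (n + 1)), Φ.symm e⟫ = 0 := by
    rw [← Φ.inner_map_map, hΦo, Φ.apply_symm_apply, inner_e0, he]
    simp [EuclideanSpace.single_apply, (Fin.succ_ne_zero i).symm]
  have h2 := hint (Φ.symm e) hov
  rw [← h2]
  refine integral_congr_ae (Filter.Eventually.of_forall fun x => ?_)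
  show H ((act Φ x : E (n + 1)) 0) * (act Φ x : E (n + 1)) i.succ = _
  have h3 : (act Φ x : E (n + 1)) 0 = ⟪(o : E (n + 1)), (x : E (n + 1))⟫ := by
    rw [← inner_e0, ← hΦo]
    exact Φ.inner_map_map _ _
  have h4 : (act Φ x : E (n + 1)) i.succ = ⟪Φ.symm e, (x : E (n + 1))⟫ := by
    rw [← hei, act_coe, ← Φ.inner_map_map (Φ.symm e), Φ.apply_symm_apply]
  rw [h3, h4]

/-- the Weinstock inequality for a domain in the hemisphere about a point at which all means vanish -/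
theorem weinstock_centered (hn : 3 ≤ n) {Ω : Set (Sp n)} (h : Hd Ω) {o : Sp n} (hoΩ : o ∈ Ω)
    (ho : ∀ x ∈ closure Ω, 0 < ⟪(o : E (n + 1)), (x : E (n + 1))⟫)
    (hint : ∀ H : ℝ → ℝ, ContDiff ℝ 1 H → ∀ v : E (n + 1), ⟪(o : E (n + 1)), v⟫ = 0 →
      ∫ x in frontier Ω, H ⟪(o : E (n + 1)), (x : E (n + 1))⟫ * ⟪v, (x : E (n + 1))⟫ ∂bs n = 0)
    (hV : ∃ p : Sp n, sg (n + 1) Ω ≤ sg (n + 1) (gball p (Real.pi / 4)) ∨
      bs n (frontier Ω) ≤ bs n (frontier (gball p (Real.pi / 4)))) : Weinstock Ω := by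
  have hn2 : 2 ≤ n := by omega
  have hn1 : 1 ≤ n := by omega
  have hpi := Real.pi_pos
  obtain ⟨R, hR0, hR1, hR⟩ := h.radius hn2
  obtain ⟨Φ, hΦ⟩ := exists_act o (nor n)
  have hd : Ds (act Φ '' Ω) := act_ds h ho hΦ
  have hoW : nor n ∈ act Φ '' Ω := ⟨o, hoΩ, hΦ⟩
  have hmean : ∀ H : ℝ → ℝ, ContDiff ℝ 1 H →
      ∀ i : Fin n, ∫ p in frontier (act Φ '' Ω), uH H i (p : E (n + 1)) ∂bs n = 0 :=
    fun H hH i => move_int hΦ (hint H hH) i
  have hbs : bs n (frontier (act Φ '' Ω)) = bs n (gsph (nor n) R) := by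
    rw [← act_frontier, bs_act_image, hR]
  have hsig : sigma1 (act Φ '' Ω) = sigma1 Ω := sigma1_act Φ Ω
  refine finish' hn h ho hR0 hR1 hR ?_
  rcases le_or_gt R (Real.pi / 4) with h4 | h4
  · have h5 := case_smallS hn hd hoW hmean hR0 h4 hbs
    rw [hsig] at h5
    refine ⟨h5.1, fun h6 => ⟨act Φ.symm (nor n), ?_⟩⟩
    rw [← act_gball, ← h5.2 h6, image_image]
    simp only [act_symm_act, image_id']
  · have hV' : sg (n + 1) (act Φ '' Ω) ≤ sg (n + 1) (gball (nor n) (Real.pi / 4)) := by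
      obtain ⟨p, hp⟩ := hV
      rw [sg_act_image]
      rcases hp with hp | hp
      · rwa [sg_gball hn2 p (by linarith) (by linarith),
          ← sg_gball hn2 (nor n) (by linarith) (by linarith)] at hp
      · exfalso
        rw [frontier_gball hn1 p (by linarith) (by linarith), ← hR p] at hp
        exact absurd (bs_gsph_strictMono hn2 p p (by linarith) h4 hR1.le) (not_lt.2 hp)
    have h5 := case_largeS hn hd hoW hmean h4 hR1 hbs hV'
    rw [hsig] at h5
    exact ⟨h5.le, fun h6 => absurd h6 (not_le.2 h5)⟩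

theorem weinstock_sym (hn : 3 ≤ n) {Ω : Set (Sp n)} (hΩ : IsOpen Ω) (hne : Ω.Nonempty)
    (hc : GConvex Ω)
    (hw : ∃ w : Sp n, ∀ p ∈ closure Ω, 0 < ⟪(w : E (n + 1)), (p : E (n + 1))⟫)
    (hs : ∃ c : E (n + 1), ∀ v : E (n + 1), Fix Ω v → ∃ t : ℝ, v = t • c)
    (hV : ∃ p : Sp n, sg (n + 1) Ω ≤ sg (n + 1) (gball p (Real.pi / 4)) ∨
      bs n (frontier Ω) ≤ bs n (frontier (gball p (Real.pi / 4)))) : Weinstock Ω := by
  obtain ⟨w, hw⟩ := hw
  have hpole : ∃ w : E (n + 1), ∀ x ∈ closure Ω, 0 < ⟪(x : E (n + 1)), w⟫ :=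
    ⟨w, fun x hx => by rw [real_inner_comm]; exact hw x hx⟩
  have h : Hd Ω := ⟨hΩ, hne, convex_cn_of_hemi hc
    (hpole.imp fun _ h1 x hx => h1 x (subset_closure hx)), hpole⟩
  obtain ⟨o, hoΩ, ho, hof, hfix⟩ := sym_center h hs
  exact weinstock_centered hn h hoΩ ho
    (fun H hH v hv => sym_int hof hfix (h.bs_lt_top (by omega)) hH.continuous hv) hV

end Pool.Agent.H32.SY
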